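import Mathlib

/-!
# From primitive trinomials to primitive pentanomials over `GF(2)`

If `x ^ n + x ^ a + 1` is primitive over `GF(2)` and `n ≥ 5`, then some pentanomial of degree `n`
is primitive whenever `4 ∤ n`, or `2 ^ k + 1` divides `n`, `a` or `n - a` for some `k ≥ 1` with
`v₂(n) ≤ v₂(k)`, or `3 ∤ n` and `7 ∤ n a (n - a)`.

The pentanomial is the minimal polynomial of `α ^ 5`, `α ^ (2 ^ k + 1)`, `α ^ 7` respectively.
-/

set_option autoImplicit false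

namespace Pool.Agent.Results.MP_6cc886_nt.TrinomialDegrees

open Polynomial

/-- A polynomial `f` over `GF(2)` of degree `n ≥ 1` with `f(0) = 1` is primitive if the least
positive `t` with `f ∣ X ^ t + 1` is `t = 2 ^ n - 1`. -/
def IsPrimitivePoly (f : (ZMod 2)[X]) : Prop :=
  1 ≤ f.natDegree ∧ f.coeff 0 = 1 ∧
    IsLeast {t : ℕ | 0 < t ∧ f ∣ X ^ t + 1} (2 ^ f.natDegree - 1)

section General

variable {K : Type*} [Field K] [Finite K] [Algebra (ZMod 2) K]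

lemma charTwo (K : Type*) [Field K] [Algebra (ZMod 2) K] : CharP K 2 :=
  charP_of_injective_algebraMap (algebraMap (ZMod 2) K).injective 2

/-- the order of an element is at most `2 ^ d - 1`, `d` the degree of its minimal polynomial -/
lemma pow_card_minpoly (β : K) (hβ : β ≠ 0) :
    β ^ (2 ^ (minpoly (ZMod 2) β).natDegree - 1) = 1 := by
  classical
  have hint : IsIntegral (ZMod 2) β := Algebra.IsIntegral.isIntegral β
  have hfr := IntermediateField.adjoin.finrank hint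
  have : Fintype (IntermediateField.adjoin (ZMod 2) {β}) := Fintype.ofFinite _
  have hcard : Fintype.card (IntermediateField.adjoin (ZMod 2) {β})
      = 2 ^ (minpoly (ZMod 2) β).natDegree := by
    rw [Module.card_eq_pow_finrank (K := ZMod 2), hfr, ZMod.card]
  let b : IntermediateField.adjoin (ZMod 2) {β} := IntermediateField.AdjoinSimple.gen (ZMod 2) β
  have hb : (b : K) = β := IntermediateField.AdjoinSimple.coe_gen _ _
  have hb0 : b ≠ 0 := by
    intro h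
    apply hβ
    rw [← hb, h]; rfl
  have h1 := FiniteField.pow_card_sub_one_eq_one b hb0
  rw [hcard] at h1
  have h2 := congrArg (fun z : IntermediateField.adjoin (ZMod 2) {β} => (z : K)) h1
  simpa [hb] using h2

lemma primitive_of_order (β : K) (n : ℕ) (hn : 1 ≤ n) (hord : orderOf β = 2 ^ n - 1)
    (g : (ZMod 2)[X]) (hg : g.natDegree = n) (hg0 : g.coeff 0 = 1)
    (hroot : aeval β g = 0) : IsPrimitivePoly g := by
  have := charTwo K
  have hpos : 0 < 2 ^ n - 1 := by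
    have : 2 ^ 1 ≤ 2 ^ n := Nat.pow_le_pow_right (by norm_num) hn
    omega
  have hβ : β ≠ 0 := by
    rintro rfl
    have h := pow_orderOf_eq_one (0 : K)
    rw [hord, zero_pow hpos.ne'] at h
    exact zero_ne_one h
  have hint : IsIntegral (ZMod 2) β := Algebra.IsIntegral.isIntegral β
  have hgne : g ≠ 0 := by
    rintro rfl; simp at hg0
  have hdvd : minpoly (ZMod 2) β ∣ g := minpoly.dvd _ _ hroot
  have hle : (minpoly (ZMod 2) β).natDegree ≤ n := hg ▸ natDegree_le_of_dvd hdvd hgne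
  have hge : n ≤ (minpoly (ZMod 2) β).natDegree := by
    have h1 := orderOf_dvd_of_pow_eq_one (pow_card_minpoly β hβ)
    rw [hord] at h1
    have hd : 1 ≤ (minpoly (ZMod 2) β).natDegree := minpoly.natDegree_pos hint
    have h3 : 0 < 2 ^ (minpoly (ZMod 2) β).natDegree - 1 := by
      have : 2 ^ 1 ≤ 2 ^ (minpoly (ZMod 2) β).natDegree := Nat.pow_le_pow_right (by norm_num) hd
      omega
    have h4 := Nat.le_of_dvd h3 h1
    have h5 : 2 ^ n ≤ 2 ^ (minpoly (ZMod 2) β).natDegree := by omega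
    exact (Nat.pow_le_pow_iff_right (by norm_num)).1 h5
  have hdeg : (minpoly (ZMod 2) β).natDegree = n := le_antisymm hle hge
  obtain ⟨c, hc⟩ := hdvd
  have hc0 : c ≠ 0 := by rintro rfl; simp at hc; exact hgne hc
  have hcdeg : c.natDegree = 0 := by
    have := natDegree_mul (minpoly.ne_zero hint) hc0
    rw [← hc, hg, hdeg] at this
    omega
  have hassoc : Associated (minpoly (ZMod 2) β) g := by
    rw [hc]
    have hu : IsUnit c := by
      rw [natDegree_eq_zero] at hcdeg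
      obtain ⟨x, hx⟩ := hcdeg
      rw [← hx]
      have : x ≠ 0 := by rintro rfl; simp at hx; exact hc0 hx.symm
      exact isUnit_C.2 (isUnit_iff_ne_zero.2 this)
    exact associated_mul_unit_right _ _ hu
  have key : ∀ t : ℕ, g ∣ X ^ t + 1 ↔ β ^ t = 1 := by
    intro t
    rw [← hassoc.dvd_iff_dvd_left]
    rw [minpoly.dvd_iff]
    simp only [map_add, map_pow, aeval_X, map_one]
    constructor
    · intro h
      have := CharTwo.add_eq_zero.1 h
      exact this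
    · intro h
      rw [h]; exact CharTwo.add_self_eq_zero 1
  refine ⟨by omega, hg0, ?_⟩
  rw [hg]
  constructor
  · refine ⟨hpos, (key _).2 ?_⟩
    rw [← hord]; exact pow_orderOf_eq_one β
  · rintro t ⟨ht, hdt⟩
    have := orderOf_dvd_of_pow_eq_one ((key t).1 hdt)
    rw [hord] at this
    exact Nat.le_of_dvd ht this

end General

/-- a primitive polynomial is irreducible -/
lemma irreducible_of_primitive (f : (ZMod 2)[X]) (hf : IsPrimitivePoly f) : Irreducible f := by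
  classical
  obtain ⟨hn, hf0, hleast⟩ := hf
  have hfne : f ≠ 0 := by rintro rfl; simp at hf0
  have hfin : FiniteDimensional (ZMod 2) (AdjoinRoot f) := (AdjoinRoot.powerBasis hfne).finite
  have hfinite : Finite (AdjoinRoot f) := Module.finite_of_finite (ZMod 2)
  have hft : Fintype (AdjoinRoot f) := Fintype.ofFinite _
  have hcard : Fintype.card (AdjoinRoot f) = 2 ^ f.natDegree := by
    rw [Module.card_eq_pow_finrank (K := ZMod 2), (AdjoinRoot.powerBasis hfne).finrank,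
      AdjoinRoot.powerBasis_dim, ZMod.card]
  have hpos : 0 < 2 ^ f.natDegree - 1 := hleast.1.1
  have hnt : Nontrivial (AdjoinRoot f) := by
    rw [← Fintype.one_lt_card_iff_nontrivial, hcard]
    omega
  have hchar : CharP (AdjoinRoot f) 2 :=
    charP_of_injective_algebraMap (algebraMap (ZMod 2) (AdjoinRoot f)).injective 2
  set α : AdjoinRoot f := AdjoinRoot.root f with hα
  have key : ∀ t : ℕ, f ∣ X ^ t + 1 ↔ α ^ t = 1 := by
    intro t
    rw [← AdjoinRoot.mk_eq_zero]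
    simp only [map_add, map_pow, AdjoinRoot.mk_X, map_one]
    exact CharTwo.add_eq_zero
  have hord : orderOf α = 2 ^ f.natDegree - 1 := by
    apply le_antisymm
    · exact orderOf_le_of_pow_eq_one hpos ((key _).1 hleast.1.2)
    · apply hleast.2
      refine ⟨orderOf_pos_iff.2 ?_, (key _).2 (pow_orderOf_eq_one α)⟩
      exact isOfFinOrder_iff_pow_eq_one.2 ⟨_, hpos, (key _).1 hleast.1.2⟩
  have hunit : IsUnit α := by
    refine IsUnit.of_pow_eq_one (n := 2 ^ f.natDegree - 1) ((key _).1 hleast.1.2) hpos.ne'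
  -- all nonzero elements are powers of `α`
  have hall : ∀ r : AdjoinRoot f, r ≠ 0 → IsUnit r := by
    have himg : ((Finset.range (2 ^ f.natDegree - 1)).image (fun i => α ^ i))
        = Finset.univ.erase (0 : AdjoinRoot f) := by
      apply Finset.eq_of_subset_of_card_le
      · intro r hr
        obtain ⟨i, -, rfl⟩ := Finset.mem_image.1 hr
        exact Finset.mem_erase.2 ⟨(hunit.pow i).ne_zero, Finset.mem_univ _⟩
      · rw [Finset.card_erase_of_mem (Finset.mem_univ _), Finset.card_univ, hcard,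
          Finset.card_image_of_injOn, Finset.card_range]
        intro i hi j hj hij
        have hi' : i < orderOf α := by rw [hord]; exact Finset.mem_range.1 hi
        have hj' : j < orderOf α := by rw [hord]; exact Finset.mem_range.1 hj
        exact pow_injOn_Iio_orderOf hi' hj' hij
    intro r hr
    have h1 : r ∈ Finset.univ.erase (0 : AdjoinRoot f) :=
      Finset.mem_erase.2 ⟨hr, Finset.mem_univ _⟩
    rw [← himg] at h1
    obtain ⟨i, -, rfl⟩ := Finset.mem_image.1 h1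
    exact hunit.pow i
  refine ⟨?_, ?_⟩
  · intro hu
    have := natDegree_eq_zero_of_isUnit hu
    omega
  · intro p q hpq
    by_contra hcon
    push Not at hcon
    obtain ⟨hp, hq⟩ := hcon
    have hp0 : p ≠ 0 := by rintro rfl; simp at hpq; exact hfne hpq
    have hq0 : q ≠ 0 := by rintro rfl; simp at hpq; exact hfne hpq
    have hdeg : f.natDegree = p.natDegree + q.natDegree := by
      rw [hpq, natDegree_mul hp0 hq0]
    have hnu : ∀ c : (ZMod 2)[X], c ≠ 0 → ¬ IsUnit c → 0 < c.natDegree := by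
      intro c hc0 hcu
      by_contra h
      have h' : c.natDegree = 0 := by omega
      rw [natDegree_eq_zero] at h'
      obtain ⟨x, hx⟩ := h'
      apply hcu
      rw [← hx]
      have : x ≠ 0 := by rintro rfl; simp at hx; exact hc0 hx.symm
      exact isUnit_C.2 (isUnit_iff_ne_zero.2 this)
    have hpd := hnu p hp0 hp
    have hqd := hnu q hq0 hq
    have hmp : AdjoinRoot.mk f p ≠ 0 := by
      intro h
      have := natDegree_le_of_dvd (AdjoinRoot.mk_eq_zero.1 h) hp0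
      omega
    have hmq : AdjoinRoot.mk f q ≠ 0 := by
      intro h
      have := natDegree_le_of_dvd (AdjoinRoot.mk_eq_zero.1 h) hq0
      omega
    have h0 : AdjoinRoot.mk f p * AdjoinRoot.mk f q = 0 := by
      rw [← map_mul, ← hpq]
      exact AdjoinRoot.mk_self
    exact hmq ((hall _ hmp).mul_right_eq_zero.1 h0)

/-- Transfer: if `f` is primitive of degree `n`, `α` the root of `f` in `AdjoinRoot f`, `s` is prime
to `2 ^ n - 1`, and `g` is of degree `n` with constant term `1` and `g (α ^ s) = 0`,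
then `g` is primitive. -/
lemma transfer (s : ℕ) (f : (ZMod 2)[X]) (hf : IsPrimitivePoly f)
    (hcop : Nat.Coprime (2 ^ f.natDegree - 1) s)
    (g : (ZMod 2)[X]) (hg : g.natDegree = f.natDegree) (hg0 : g.coeff 0 = 1)
    (hroot : f ∣ g.comp (X ^ s)) : IsPrimitivePoly g := by
  have hirr := irreducible_of_primitive f hf
  obtain ⟨hn, hf0, hleast⟩ := hf
  have : Fact (Irreducible f) := ⟨hirr⟩
  have hfne : f ≠ 0 := hirr.ne_zero
  have : FiniteDimensional (ZMod 2) (AdjoinRoot f) := (AdjoinRoot.powerBasis hfne).finite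
  have : Finite (AdjoinRoot f) := Module.finite_of_finite (ZMod 2)
  have := charTwo (AdjoinRoot f)
  set α : AdjoinRoot f := AdjoinRoot.root f with hα
  have key : ∀ t : ℕ, f ∣ X ^ t + 1 ↔ α ^ t = 1 := by
    intro t
    rw [← AdjoinRoot.mk_eq_zero]
    simp only [map_add, map_pow, AdjoinRoot.mk_X, map_one]
    exact CharTwo.add_eq_zero
  have hpos : 0 < 2 ^ f.natDegree - 1 := hleast.1.1
  have hord : orderOf α = 2 ^ f.natDegree - 1 := by
    apply le_antisymm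
    · exact orderOf_le_of_pow_eq_one hpos ((key _).1 hleast.1.2)
    · apply hleast.2
      refine ⟨orderOf_pos_iff.2 ?_, (key _).2 (pow_orderOf_eq_one α)⟩
      exact isOfFinOrder_iff_pow_eq_one.2 ⟨_, hpos, (key _).1 hleast.1.2⟩
  have hords : orderOf (α ^ s) = 2 ^ f.natDegree - 1 := by
    rw [← hord] at hcop
    rw [Nat.Coprime.orderOf_pow hcop, hord]
  refine primitive_of_order (α ^ s) f.natDegree hn hords g hg hg0 ?_
  have h1 : AdjoinRoot.mk f (g.comp (X ^ s)) = 0 := AdjoinRoot.mk_eq_zero.2 hroot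
  rw [← AdjoinRoot.aeval_eq] at h1
  simpa [aeval_comp] using h1

lemma two_eq_zero_poly : (2 : (ZMod 2)[X]) = 0 := CharTwo.two_eq_zero

lemma dvd_form_q (k : ℕ) (u v w : (ZMod 2)[X]) :
    (u + v + w) ∣ w ^ (2 ^ k + 1) + u ^ (2 ^ k + 1) + u ^ (2 ^ k) * v + u * v ^ (2 ^ k)
      + v ^ (2 ^ k + 1) := by
  have h1 : (u + v) ^ (2 ^ k) = u ^ (2 ^ k) + v ^ (2 ^ k) := add_pow_char_pow u v 2 k
  have h2 := sub_dvd_pow_sub_pow (u + v) w (2 ^ k + 1)
  rw [CharTwo.sub_eq_add, CharTwo.sub_eq_add] at h2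
  convert h2 using 1
  rw [pow_succ (u + v), h1]
  ring

lemma dvd_form_two (u v w : (ZMod 2)[X]) :
    (u + v + w) ∣ u ^ 5 + v ^ 5 + w ^ 5 + u * v ^ 3 * w + u ^ 2 * v * w ^ 2 := by
  have h2 := two_eq_zero_poly
  refine ⟨w ^ 4 - (u + v) * w ^ 3 + (u + v) ^ 2 * w ^ 2 + (5 * u ^ 2 * v - (u + v) ^ 3) * w
    + ((u + v) ^ 4 - 5 * u * v ^ 3 - 5 * u ^ 2 * v * (u + v)), ?_⟩
  linear_combination (3 * u * v ^ 3 * w - 2 * u ^ 2 * v * w ^ 2) * h2

lemma dvd_form_seven (u v w : (ZMod 2)[X]) :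
    (u + v + w) ∣ u ^ 7 + v ^ 7 + w ^ 7 + u ^ 5 * v * w + u * v ^ 3 * w ^ 3 := by
  have h2 := two_eq_zero_poly
  refine ⟨u ^ 6 + u ^ 5 * v + u ^ 5 * w + u ^ 4 * v ^ 2 + u ^ 4 * v * w + u ^ 4 * w ^ 2
    + u ^ 3 * v ^ 3 + u ^ 3 * w ^ 3 + u ^ 2 * v ^ 4 + u ^ 2 * v ^ 3 * w + u ^ 2 * v * w ^ 3
    + u ^ 2 * w ^ 4 + u * v ^ 5 + u * v ^ 3 * w ^ 2 + u * v ^ 2 * w ^ 3 + u * w ^ 5 + v ^ 6
    + v ^ 5 * w + v ^ 4 * w ^ 2 + v ^ 3 * w ^ 3 + v ^ 2 * w ^ 4 + v * w ^ 5 + w ^ 6, ?_⟩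
  linear_combination (- u ^ 6 * v - u ^ 6 * w - u ^ 5 * v ^ 2 - u ^ 5 * v * w - u ^ 5 * w ^ 2
    - u ^ 4 * v ^ 3 - u ^ 4 * v ^ 2 * w - u ^ 4 * v * w ^ 2 - u ^ 4 * w ^ 3 - u ^ 3 * v ^ 4
    - u ^ 3 * v ^ 3 * w - u ^ 3 * v * w ^ 3 - u ^ 3 * w ^ 4 - u ^ 2 * v ^ 5 - u ^ 2 * v ^ 4 * w
    - u ^ 2 * v ^ 3 * w ^ 2 - u ^ 2 * v ^ 2 * w ^ 3 - u ^ 2 * v * w ^ 4 - u ^ 2 * w ^ 5
    - u * v ^ 6 - u * v ^ 5 * w - u * v ^ 4 * w ^ 2 - u * v ^ 3 * w ^ 3 - u * v ^ 2 * w ^ 4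
    - u * v * w ^ 5 - u * w ^ 6 - v ^ 6 * w - v ^ 5 * w ^ 2 - v ^ 4 * w ^ 3 - v ^ 3 * w ^ 4
    - v ^ 2 * w ^ 5 - v * w ^ 6) * h2

lemma natDegree_penta (n p q r : ℕ) (hp : p < n) (hq : q < n) (hr : r < n) :
    (X ^ n + X ^ p + X ^ q + X ^ r + 1 : (ZMod 2)[X]).natDegree = n := by
  have h : (X ^ n + X ^ p + X ^ q + X ^ r + 1 : (ZMod 2)[X])
      = X ^ n + (X ^ p + X ^ q + X ^ r + 1) := by ring
  rw [h, natDegree_add_eq_left_of_natDegree_lt, natDegree_X_pow]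
  rw [natDegree_X_pow]
  refine lt_of_le_of_lt (natDegree_add_le _ _) (max_lt (lt_of_le_of_lt (natDegree_add_le _ _)
    (max_lt (lt_of_le_of_lt (natDegree_add_le _ _) (max_lt ?_ ?_)) ?_)) ?_)
  all_goals simp
  all_goals omega

lemma coeff_penta (n p q r : ℕ) (hn : 0 < n) (hp : 0 < p) (hq : 0 < q) (hr : 0 < r) :
    (X ^ n + X ^ p + X ^ q + X ^ r + 1 : (ZMod 2)[X]).coeff 0 = 1 := by
  simp only [coeff_add, coeff_X_pow, coeff_one]
  simp [hn.ne, hp.ne, hq.ne, hr.ne]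

lemma natDegree_tri (n a : ℕ) (ha : a < n) :
    (X ^ n + X ^ a + 1 : (ZMod 2)[X]).natDegree = n := by
  have h : (X ^ n + X ^ a + 1 : (ZMod 2)[X]) = X ^ n + (X ^ a + 1) := by ring
  rw [h, natDegree_add_eq_left_of_natDegree_lt, natDegree_X_pow]
  rw [natDegree_X_pow]
  refine lt_of_le_of_lt (natDegree_add_le _ _) (max_lt ?_ ?_)
  all_goals simp
  all_goals omega

/-- The conclusion of the theorem. -/
def HasPrimitivePentanomial (n : ℕ) : Prop :=
  ∃ a₁ a₂ a₃ : ℕ, 0 < a₁ ∧ a₁ < a₂ ∧ a₂ < a₃ ∧ a₃ < n ∧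
    IsPrimitivePoly (X ^ n + X ^ a₃ + X ^ a₂ + X ^ a₁ + 1)

lemma sorted (n p q r : ℕ) (hp : 0 < p) (hq : 0 < q) (hr : 0 < r) (hpn : p < n) (hqn : q < n)
    (hrn : r < n) (hpq : p ≠ q) (hpr : p ≠ r) (hqr : q ≠ r)
    (h : IsPrimitivePoly (X ^ n + X ^ p + X ^ q + X ^ r + 1)) :
    HasPrimitivePentanomial n := by
  rcases lt_or_gt_of_ne hpq with h1 | h1 <;> rcases lt_or_gt_of_ne hpr with h2 | h2 <;>
    rcases lt_or_gt_of_ne hqr with h3 | h3
  · exact ⟨p, q, r, hp, h1, h3, hrn, by convert h using 1; ring⟩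
  · exact ⟨p, r, q, hp, h2, h3, hqn, by convert h using 1; ring⟩
  · omega
  · exact ⟨r, p, q, hr, h2, h1, hqn, by convert h using 1; ring⟩
  · exact ⟨q, p, r, hq, h1, h2, hrn, by convert h using 1; ring⟩
  · omega
  · exact ⟨q, r, p, hq, h3, h2, hpn, by convert h using 1; ring⟩
  · exact ⟨r, q, p, hr, h3, h1, hpn, by convert h using 1⟩

lemma finish (s n a p q r : ℕ) (hcop : Nat.Coprime (2 ^ n - 1) s) (ha : a < n)
    (hf : IsPrimitivePoly (X ^ n + X ^ a + 1))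
    (hp : 0 < p) (hq : 0 < q) (hr : 0 < r) (hpn : p < n) (hqn : q < n)
    (hrn : r < n) (hpq : p ≠ q) (hpr : p ≠ r) (hqr : q ≠ r)
    (hdvd : (X ^ n + X ^ a + 1 : (ZMod 2)[X]) ∣
      (X ^ s) ^ n + (X ^ s) ^ p + (X ^ s) ^ q + (X ^ s) ^ r + 1) :
    HasPrimitivePentanomial n := by
  refine sorted n p q r hp hq hr hpn hqn hrn hpq hpr hqr ?_
  have hdeg := natDegree_tri n a ha
  refine transfer s _ hf (by rw [hdeg]; exact hcop) _ ?_ ?_ ?_
  · rw [hdeg]; exact natDegree_penta n p q r hpn hqn hrn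
  · exact coeff_penta n p q r (by omega) hp hq hr
  · simpa only [add_comp, pow_comp, X_comp, one_comp] using hdvd

lemma pw (s i j k l m : ℕ) (e : s * i = j * k + l * m) :
    ((X ^ s) ^ i : (ZMod 2)[X]) = (X ^ k) ^ j * (X ^ m) ^ l := by
  rw [← pow_mul, ← pow_mul, ← pow_mul, ← pow_add]
  congr 1
  rw [e]; ring

/-- the exponents of a primitive trinomial are coprime -/
lemma gcd_eq_one (n a : ℕ) (ha0 : 0 < a) (han : a < n)
    (hf : IsPrimitivePoly (X ^ n + X ^ a + 1)) : Nat.gcd n a = 1 := by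
  classical
  by_contra hd
  have hirr := irreducible_of_primitive _ hf
  have hdeg := natDegree_tri n a han
  obtain ⟨hn, hf0, hleast⟩ := hf
  set f : (ZMod 2)[X] := X ^ n + X ^ a + 1 with hfdef
  have : Fact (Irreducible f) := ⟨hirr⟩
  have hfne : f ≠ 0 := hirr.ne_zero
  have : FiniteDimensional (ZMod 2) (AdjoinRoot f) := (AdjoinRoot.powerBasis hfne).finite
  have : Finite (AdjoinRoot f) := Module.finite_of_finite (ZMod 2)
  have := charTwo (AdjoinRoot f)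
  set α : AdjoinRoot f := AdjoinRoot.root f with hα
  set d := Nat.gcd n a with hddef
  have hd0 : 0 < d := Nat.gcd_pos_of_pos_right _ ha0
  have hd2 : 2 ≤ d := by omega
  obtain ⟨e, he⟩ : d ∣ n := Nat.gcd_dvd_left _ _
  obtain ⟨b, hb⟩ : d ∣ a := Nat.gcd_dvd_right _ _
  have he0 : 0 < e := by
    rcases Nat.eq_zero_or_pos e with h | h
    · rw [h, mul_zero] at he; omega
    · exact h
  have hbe : b < e := by
    by_contra h
    push Not at h
    have := Nat.mul_le_mul_left d h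
    omega
  have hroot : α ^ n + α ^ a + 1 = 0 := by
    have h1 : AdjoinRoot.mk f (X ^ n + X ^ a + 1) = 0 := AdjoinRoot.mk_self
    simpa only [map_add, map_pow, AdjoinRoot.mk_X, map_one] using h1
  have hα0 : α ≠ 0 := by
    intro h
    rw [h, zero_pow (by omega), zero_pow (by omega)] at hroot
    simp at hroot
  have hg : aeval (α ^ d) (X ^ e + X ^ b + 1 : (ZMod 2)[X]) = 0 := by
    simp only [map_add, map_pow, aeval_X, map_one]
    rw [← pow_mul, ← pow_mul, ← he, ← hb]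
    exact hroot
  have hgne : (X ^ e + X ^ b + 1 : (ZMod 2)[X]) ≠ 0 := by
    intro h
    have := natDegree_tri e b hbe
    rw [h, natDegree_zero] at this
    omega
  have hmd : (minpoly (ZMod 2) (α ^ d)).natDegree ≤ e := by
    have := natDegree_le_of_dvd (minpoly.dvd _ _ hg) hgne
    rwa [natDegree_tri e b hbe] at this
  have hmpos : 0 < (minpoly (ZMod 2) (α ^ d)).natDegree :=
    minpoly.natDegree_pos (Algebra.IsIntegral.isIntegral _)
  have h1 := pow_card_minpoly (α ^ d) (pow_ne_zero _ hα0)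
  rw [← pow_mul] at h1
  have key : ∀ t : ℕ, f ∣ X ^ t + 1 ↔ α ^ t = 1 := by
    intro t
    rw [← AdjoinRoot.mk_eq_zero]
    simp only [map_add, map_pow, AdjoinRoot.mk_X, map_one]
    exact CharTwo.add_eq_zero
  set m := (minpoly (ZMod 2) (α ^ d)).natDegree with hm
  have hm1 : 0 < 2 ^ m - 1 := by
    have : 2 ^ 1 ≤ 2 ^ m := Nat.pow_le_pow_right (by norm_num) hmpos
    omega
  have h2 := hleast.2 ⟨Nat.mul_pos hd0 hm1, (key _).2 h1⟩
  rw [hdeg, he] at h2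
  -- `2 ^ (d e) - 1 ≤ d (2 ^ m - 1)`, impossible
  have h3 : 2 ^ m ≤ 2 ^ e := Nat.pow_le_pow_right (by norm_num) hmd
  have h4 : d * 2 ^ e + 1 < 2 ^ (d * e) + d := by
    have h5 : ∀ j : ℕ, (j + 2) * 2 ^ e + 1 < 2 ^ ((j + 2) * e) + (j + 2) := by
      have hE : 2 ≤ 2 ^ e := by
        calc 2 = 2 ^ 1 := by norm_num
          _ ≤ 2 ^ e := Nat.pow_le_pow_right (by norm_num) he0
      intro j
      induction j with
      | zero =>
        rw [show (0 + 2) * e = e + e by ring, pow_add]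
        nlinarith
      | succ j ih =>
        rw [show (j + 1 + 2) * e = (j + 2) * e + e by ring, pow_add]
        have h6 : 2 ^ ((j + 2) * e) * 2 ≤ 2 ^ ((j + 2) * e) * 2 ^ e :=
          Nat.mul_le_mul_left _ hE
        have h7 : 2 ^ e ≤ 2 ^ ((j + 2) * e) := by
          apply Nat.pow_le_pow_right (by norm_num)
          nlinarith
        nlinarith
    have := h5 (d - 2)
    rwa [Nat.sub_add_cancel hd2] at this
  have h8 : d * 2 ^ m ≤ d * 2 ^ e := Nat.mul_le_mul_left _ h3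
  have h9 : d * (2 ^ m - 1) = d * 2 ^ m - d := by
    rw [Nat.mul_sub, mul_one]
  rw [h9] at h2
  have h10 : d ≤ d * 2 ^ m := Nat.le_mul_of_pos_right _ (by positivity)
  omega

/-- no small exponent -/
lemma no_small (n a : ℕ) (ha : a < n) (hf : IsPrimitivePoly (X ^ n + X ^ a + 1))
    (t : ℕ) (ht : 0 < t) (htn : t < 2 ^ n - 1)
    (hdvd : (X ^ n + X ^ a + 1 : (ZMod 2)[X]) ∣ X ^ t + 1) : False := by
  have h := hf.2.2.2 ⟨ht, hdvd⟩
  rw [natDegree_tri n a ha] at h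
  omega

/-! ### the case `s = 2 ^ k + 1`, two exponents congruent -/

lemma case_a (k n a b : ℕ) (hcop : Nat.Coprime (2 ^ n - 1) (2 ^ k + 1)) (hk : 1 ≤ k) (ha0 : 0 < a)
    (han : a < n) (hf : IsPrimitivePoly (X ^ n + X ^ a + 1)) (hb : a = (2 ^ k + 1) * b) :
    HasPrimitivePentanomial n := by
  have hq : 2 ≤ 2 ^ k := by
    calc 2 = 2 ^ 1 := by norm_num
      _ ≤ 2 ^ k := Nat.pow_le_pow_right (by norm_num) hk
  have hb0 : 0 < b := by
    rcases Nat.eq_zero_or_pos b with h | h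
    · rw [h, mul_zero] at hb; omega
    · exact h
  have e1 : a = 2 ^ k * b + b := by rw [hb]; ring
  have e2 : 2 * b ≤ 2 ^ k * b := Nat.mul_le_mul_right _ hq
  refine finish (2 ^ k + 1) n a a (2 ^ k * b) b hcop han hf (by omega) (by omega) (by omega)
    (by omega) (by omega) (by omega) (by omega) (by omega) (by omega) ?_
  have h := dvd_form_q k (X ^ a) 1 (X ^ n)
  rw [pw (2 ^ k + 1) n (2 ^ k + 1) n 0 0 (by ring), pw (2 ^ k + 1) a (2 ^ k + 1) a 0 0 (by ring),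
    pw (2 ^ k + 1) (2 ^ k * b) (2 ^ k) a 0 0 (by rw [hb]; ring),
    pw (2 ^ k + 1) b 1 a 0 0 (by rw [hb]; ring)]
  convert h using 1 <;> ring

lemma case_n (k n a c : ℕ) (hcop : Nat.Coprime (2 ^ n - 1) (2 ^ k + 1)) (hk : 1 ≤ k) (ha0 : 0 < a)
    (han : a < n) (hf : IsPrimitivePoly (X ^ n + X ^ a + 1)) (hc : n = (2 ^ k + 1) * c)
    (h1 : a ≠ c) (h2 : a ≠ 2 ^ k * c) :
    HasPrimitivePentanomial n := by
  have hq : 2 ≤ 2 ^ k := by
    calc 2 = 2 ^ 1 := by norm_num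
      _ ≤ 2 ^ k := Nat.pow_le_pow_right (by norm_num) hk
  have hc0 : 0 < c := by
    rcases Nat.eq_zero_or_pos c with h | h
    · rw [h, mul_zero] at hc; omega
    · exact h
  have e1 : n = 2 ^ k * c + c := by rw [hc]; ring
  have e2 : 2 * c ≤ 2 ^ k * c := Nat.mul_le_mul_right _ hq
  refine finish (2 ^ k + 1) n a a (2 ^ k * c) c hcop han hf (by omega) (by omega) (by omega)
    (by omega) (by omega) (by omega) (by omega) (by omega) (by omega) ?_
  have h := dvd_form_q k (X ^ n) 1 (X ^ a)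
  rw [pw (2 ^ k + 1) n (2 ^ k + 1) n 0 0 (by ring), pw (2 ^ k + 1) a (2 ^ k + 1) a 0 0 (by ring),
    pw (2 ^ k + 1) (2 ^ k * c) (2 ^ k) n 0 0 (by rw [hc]; ring),
    pw (2 ^ k + 1) c 1 n 0 0 (by rw [hc]; ring)]
  convert h using 1 <;> ring

lemma case_d (k n a c : ℕ) (hcop : Nat.Coprime (2 ^ n - 1) (2 ^ k + 1)) (hk : 1 ≤ k) (ha0 : 0 < a)
    (han : a < n) (hf : IsPrimitivePoly (X ^ n + X ^ a + 1)) (hc : n = a + (2 ^ k + 1) * c) :
    HasPrimitivePentanomial n := by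
  have hq : 2 ≤ 2 ^ k := by
    calc 2 = 2 ^ 1 := by norm_num
      _ ≤ 2 ^ k := Nat.pow_le_pow_right (by norm_num) hk
  have hc0 : 0 < c := by
    rcases Nat.eq_zero_or_pos c with h | h
    · rw [h, mul_zero] at hc; omega
    · exact h
  have e1 : n = a + 2 ^ k * c + c := by rw [hc]; ring
  have e2 : 2 * c ≤ 2 ^ k * c := Nat.mul_le_mul_right _ hq
  refine finish (2 ^ k + 1) n a a (a + 2 ^ k * c) (a + c) hcop han hf (by omega) (by omega)
    (by omega) (by omega) (by omega) (by omega) (by omega) (by omega) (by omega) ?_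
  have h := dvd_form_q k (X ^ n) (X ^ a) 1
  rw [pw (2 ^ k + 1) n (2 ^ k + 1) n 0 0 (by ring), pw (2 ^ k + 1) a (2 ^ k + 1) a 0 0 (by ring),
    pw (2 ^ k + 1) (a + 2 ^ k * c) (2 ^ k) n 1 a (by rw [hc]; ring),
    pw (2 ^ k + 1) (a + c) 1 n (2 ^ k) a (by rw [hc]; ring)]
  convert h using 1 <;> ring

/-! ### coprimality -/

lemma coprime_q (n k : ℕ) (hn : n ≠ 0) (hk : 1 ≤ k) (h : ∀ j, 2 ^ j ∣ n → 2 ^ j ∣ k) :
    Nat.Coprime (2 ^ n - 1) (2 ^ k + 1) := by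
  by_contra hcon
  obtain ⟨p, hp, hp1, hp2⟩ := Nat.Prime.not_coprime_iff_dvd.1 hcon
  have : Fact p.Prime := ⟨hp⟩
  obtain ⟨v, m, hm, hnm⟩ := Nat.exists_eq_two_pow_mul_odd hn
  obtain ⟨l, hl⟩ := h v ⟨m, hnm⟩
  have e1 : (2 : ZMod p) ^ n = 1 := by
    have h1 : ((2 ^ n - 1 : ℕ) : ZMod p) = 0 := (ZMod.natCast_eq_zero_iff _ _).2 hp1
    rw [Nat.cast_sub Nat.one_le_two_pow] at h1
    push_cast at h1
    exact sub_eq_zero.1 h1
  have e2 : (2 : ZMod p) ^ k = -1 := by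
    have h1 : ((2 ^ k + 1 : ℕ) : ZMod p) = 0 := (ZMod.natCast_eq_zero_iff _ _).2 hp2
    push_cast at h1
    exact eq_neg_of_add_eq_zero_left h1
  have e3 : (2 : ZMod p) ^ (k * m) = -1 := by
    rw [pow_mul, e2, hm.neg_one_pow]
  have e4 : (2 : ZMod p) ^ (k * m) = 1 := by
    have : k * m = n * l := by rw [hl, hnm]; ring
    rw [this, pow_mul, e1, one_pow]
  have e5 : ((2 : ℕ) : ZMod p) = 0 := by
    rw [e3] at e4
    push_cast
    linear_combination -e4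
  have e6 : p ∣ 2 := (ZMod.natCast_eq_zero_iff _ _).1 e5
  have e7 : p = 2 := (Nat.prime_dvd_prime_iff_eq hp Nat.prime_two).1 e6
  rw [e7] at hp2
  have e8 : 2 ∣ 2 ^ k := dvd_pow_self 2 (by omega)
  omega

lemma coprime_five (n : ℕ) (hn : n ≠ 0) (h : ¬ 4 ∣ n) : Nat.Coprime (2 ^ n - 1) (2 ^ 2 + 1) := by
  refine coprime_q n 2 hn (by norm_num) fun j hj => ?_
  rcases Nat.lt_or_ge j 2 with h1 | h1
  · interval_cases j <;> norm_num
  · exact absurd ((Nat.pow_dvd_pow 2 h1 : 2 ^ 2 ∣ 2 ^ j).trans hj) h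

lemma coprime_seven (n : ℕ) (h : ¬ 3 ∣ n) : Nat.Coprime (2 ^ n - 1) 7 := by
  rw [Nat.coprime_comm, Nat.Prime.coprime_iff_not_dvd (by norm_num)]
  intro hdvd
  have hpos : 0 < 2 ^ n := by positivity
  have h1 : n = 3 * (n / 3) + n % 3 := (Nat.div_add_mod n 3).symm
  have h2 : n % 3 = 1 ∨ n % 3 = 2 := by omega
  have h3 : 2 ^ n % 7 = 2 ^ (n % 3) % 7 := by
    rw [h1, pow_add, pow_mul, Nat.mul_mod, Nat.pow_mod]
    norm_num
  rcases h2 with h2 | h2
  · rw [h2] at h3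
    norm_num at h3
    omega
  · rw [h2] at h3
    norm_num at h3
    omega

/-- collisions of exponents are impossible -/
lemma coll (n a i j : ℕ) (hn : 5 ≤ n) (hgcd : Nat.gcd n a = 1) (hj : 0 < j) (hj5 : j < 5)
    (h : i * n = j * a) : False := by
  have h1 : n ∣ j * a := ⟨i, by rw [← h]; ring⟩
  have h2 : n ∣ j := Nat.Coprime.dvd_of_dvd_mul_right hgcd h1
  have := Nat.le_of_dvd hj h2
  omega

lemma coll_six (n a i : ℕ) (hn : 5 ≤ n) (hgcd : Nat.gcd n a = 1) (h3 : ¬ 3 ∣ n)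
    (h : i * n = 6 * a) : False := by
  have h1 : n ∣ 6 * a := ⟨i, by rw [← h]; ring⟩
  have h2 : n ∣ 6 := Nat.Coprime.dvd_of_dvd_mul_right hgcd h1
  have := Nat.le_of_dvd (by norm_num) h2
  obtain rfl | rfl : n = 5 ∨ n = 6 := by omega
  · omega
  · omega

/-! ### the case `s = 5` -/

lemma five_mid_one (n a p : ℕ) (hcop : Nat.Coprime (2 ^ n - 1) 5) (hn : 5 ≤ n) (ha0 : 0 < a)
    (han : a < n) (hf : IsPrimitivePoly (X ^ n + X ^ a + 1)) (hp : 5 * p = a + n) :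
    HasPrimitivePentanomial n := by
  have hg := gcd_eq_one n a ha0 han hf
  have e1 : n ≠ 4 * a := fun e => coll n a 1 4 hn hg (by norm_num) (by norm_num) (by omega)
  have e2 : 2 * n ≠ 3 * a := fun e => coll n a 2 3 hn hg (by norm_num) (by norm_num) (by omega)
  refine finish 5 n a a p (2 * p) hcop han hf (by omega) (by omega) (by omega) (by omega)
    (by omega) (by omega) (by omega) (by omega) (by omega) ?_
  have h := dvd_form_two (X ^ a) 1 (X ^ n)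
  rw [pw 5 n 5 n 0 0 (by omega), pw 5 a 5 a 0 0 (by omega), pw 5 p 1 a 1 n (by omega),
    pw 5 (2 * p) 2 a 2 n (by omega)]
  convert h using 1 <;> ring

lemma five_mid_a (n a p q : ℕ) (hcop : Nat.Coprime (2 ^ n - 1) 5) (hn : 5 ≤ n) (ha0 : 0 < a)
    (han : a < n) (hf : IsPrimitivePoly (X ^ n + X ^ a + 1)) (hp : 5 * p = 3 * a + n)
    (hq : 5 * q = a + 2 * n) : HasPrimitivePentanomial n := by
  have hg := gcd_eq_one n a ha0 han hf
  have e1 : n ≠ 2 * a := fun e => coll n a 1 2 hn hg (by norm_num) (by norm_num) (by omega)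
  refine finish 5 n a a p q hcop han hf (by omega) (by omega) (by omega) (by omega) (by omega)
    (by omega) (by omega) (by omega) (by omega) ?_
  have h := dvd_form_two 1 (X ^ a) (X ^ n)
  rw [pw 5 n 5 n 0 0 (by omega), pw 5 a 5 a 0 0 (by omega), pw 5 p 3 a 1 n (by omega),
    pw 5 q 1 a 2 n (by omega)]
  convert h using 1 <;> ring

lemma five_mid_n (n a p q : ℕ) (hcop : Nat.Coprime (2 ^ n - 1) 5) (hn : 5 ≤ n) (ha0 : 0 < a)
    (han : a < n) (hf : IsPrimitivePoly (X ^ n + X ^ a + 1)) (hp : 5 * p = a + 3 * n)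
    (hq : 5 * q = 2 * a + n) : HasPrimitivePentanomial n := by
  have hg := gcd_eq_one n a ha0 han hf
  have e1 : 3 * n ≠ 4 * a := fun e => coll n a 3 4 hn hg (by norm_num) (by norm_num) (by omega)
  have e2 : n ≠ 3 * a := fun e => coll n a 1 3 hn hg (by norm_num) (by norm_num) (by omega)
  refine finish 5 n a a p q hcop han hf (by omega) (by omega) (by omega) (by omega) (by omega)
    (by omega) (by omega) (by omega) (by omega) ?_
  have h := dvd_form_two 1 (X ^ n) (X ^ a)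
  rw [pw 5 n 5 n 0 0 (by omega), pw 5 a 5 a 0 0 (by omega), pw 5 p 1 a 3 n (by omega),
    pw 5 q 2 a 1 n (by omega)]
  convert h using 1 <;> ring

/-! ### the case `s = 7` -/

lemma seven_mid_one (n a p : ℕ) (hcop : Nat.Coprime (2 ^ n - 1) 7) (hn : 5 ≤ n) (ha0 : 0 < a)
    (han : a < n) (h3 : ¬ 3 ∣ n) (hf : IsPrimitivePoly (X ^ n + X ^ a + 1))
    (hp : 7 * p = a + n) : HasPrimitivePentanomial n := by
  have hg := gcd_eq_one n a ha0 han hf
  have e1 : n ≠ 6 * a := fun e => coll_six n a 1 hn hg h3 (by omega)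
  have e2 : 3 * n ≠ 4 * a := fun e => coll n a 3 4 hn hg (by norm_num) (by norm_num) (by omega)
  refine finish 7 n a a p (3 * p) hcop han hf (by omega) (by omega) (by omega) (by omega)
    (by omega) (by omega) (by omega) (by omega) (by omega) ?_
  have h := dvd_form_seven 1 (X ^ a) (X ^ n)
  rw [pw 7 n 7 n 0 0 (by omega), pw 7 a 7 a 0 0 (by omega), pw 7 p 1 a 1 n (by omega),
    pw 7 (3 * p) 3 a 3 n (by omega)]
  convert h using 1 <;> ring

lemma seven_mid_a (n a p q : ℕ) (hcop : Nat.Coprime (2 ^ n - 1) 7) (hn : 5 ≤ n) (ha0 : 0 < a)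
    (han : a < n) (hf : IsPrimitivePoly (X ^ n + X ^ a + 1)) (hp : 7 * p = 5 * a + n)
    (hq : 7 * q = a + 3 * n) : HasPrimitivePentanomial n := by
  have hg := gcd_eq_one n a ha0 han hf
  have e1 : n ≠ 2 * a := fun e => coll n a 1 2 hn hg (by norm_num) (by norm_num) (by omega)
  refine finish 7 n a a p q hcop han hf (by omega) (by omega) (by omega) (by omega) (by omega)
    (by omega) (by omega) (by omega) (by omega) ?_
  have h := dvd_form_seven (X ^ a) 1 (X ^ n)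
  rw [pw 7 n 7 n 0 0 (by omega), pw 7 a 7 a 0 0 (by omega), pw 7 p 5 a 1 n (by omega),
    pw 7 q 1 a 3 n (by omega)]
  convert h using 1 <;> ring

lemma seven_mid_n (n a p q : ℕ) (hcop : Nat.Coprime (2 ^ n - 1) 7) (hn : 5 ≤ n) (ha0 : 0 < a)
    (han : a < n) (h3 : ¬ 3 ∣ n) (hf : IsPrimitivePoly (X ^ n + X ^ a + 1))
    (hp : 7 * p = 5 * n + a) (hq : 7 * q = n + 3 * a) : HasPrimitivePentanomial n := by
  have hg := gcd_eq_one n a ha0 han hf
  have e1 : 5 * n ≠ 6 * a := fun e => coll_six n a 5 hn hg h3 (by omega)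
  have e2 : n ≠ 4 * a := fun e => coll n a 1 4 hn hg (by norm_num) (by norm_num) (by omega)
  refine finish 7 n a a p q hcop han hf (by omega) (by omega) (by omega) (by omega) (by omega)
    (by omega) (by omega) (by omega) (by omega) ?_
  have h := dvd_form_seven (X ^ n) 1 (X ^ a)
  rw [pw 7 n 7 n 0 0 (by omega), pw 7 a 7 a 0 0 (by omega), pw 7 p 5 n 1 a (by omega),
    pw 7 q 1 n 3 a (by omega)]
  convert h using 1 <;> ring

/-- residues modulo `X ^ 7 + 1` -/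
lemma mod_seven (k : ℕ) : (X ^ 7 + 1 : (ZMod 2)[X]) ∣ X ^ k + X ^ (k % 7) := by
  have h1 : (X ^ k : (ZMod 2)[X]) = X ^ (k % 7) * (X ^ 7) ^ (k / 7) := by
    rw [← pow_mul, ← pow_add]
    congr 1
    omega
  have h2 := sub_dvd_pow_sub_pow (X ^ 7 : (ZMod 2)[X]) 1 (k / 7)
  rw [CharTwo.sub_eq_add, CharTwo.sub_eq_add, one_pow] at h2
  have h3 : (X ^ k + X ^ (k % 7) : (ZMod 2)[X]) = X ^ (k % 7) * ((X ^ 7) ^ (k / 7) + 1) := by
    rw [h1]; ring
  rw [h3]
  exact h2.mul_left _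

lemma excl (g : (ZMod 2)[X]) (hg : g.natDegree = 3) (hg7 : g ∣ X ^ 7 + 1) (n a : ℕ) (hn : 5 ≤ n)
    (han : a < n) (hf : IsPrimitivePoly (X ^ n + X ^ a + 1))
    (h : g ∣ X ^ (n % 7) + X ^ (a % 7) + 1) : False := by
  have hirr := irreducible_of_primitive _ hf
  have h1 : g ∣ X ^ n + X ^ a + 1 := by
    have h2 : (X ^ n + X ^ a + 1 : (ZMod 2)[X]) = (X ^ n + X ^ (n % 7)) + (X ^ a + X ^ (a % 7))
        + (X ^ (n % 7) + X ^ (a % 7) + 1) := by
      linear_combination (-(X ^ (n % 7) + X ^ (a % 7))) * two_eq_zero_poly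
    rw [h2]
    exact dvd_add (dvd_add (hg7.trans (mod_seven n)) (hg7.trans (mod_seven a))) h
  obtain ⟨c, hc⟩ := h1
  have hg0 : g ≠ 0 := by rintro rfl; simp at hg
  have hc0 : c ≠ 0 := by
    rintro rfl
    rw [mul_zero] at hc
    exact hirr.ne_zero hc
  have hdeg := natDegree_tri n a han
  rw [hc, natDegree_mul hg0 hc0, hg] at hdeg
  rcases hirr.isUnit_or_isUnit hc with h | h
  · have := natDegree_eq_zero_of_isUnit h
    omega
  · have := natDegree_eq_zero_of_isUnit h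
    omega

lemma deg_one : (X ^ 3 + X + 1 : (ZMod 2)[X]).natDegree = 3 := by
  have := natDegree_tri 3 1 (by norm_num)
  simpa using this

lemma deg_two : (X ^ 3 + X ^ 2 + 1 : (ZMod 2)[X]).natDegree = 3 :=
  natDegree_tri 3 2 (by norm_num)

lemma dvd_one : (X ^ 3 + X + 1 : (ZMod 2)[X]) ∣ X ^ 7 + 1 :=
  ⟨X ^ 4 + X ^ 2 + X + 1, by
    linear_combination (- X ^ 5 - X ^ 4 - X ^ 3 - X ^ 2 - X) * two_eq_zero_poly⟩

lemma dvd_two : (X ^ 3 + X ^ 2 + 1 : (ZMod 2)[X]) ∣ X ^ 7 + 1 :=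
  ⟨X ^ 4 + X ^ 3 + X ^ 2 + 1, by
    linear_combination (- X ^ 6 - X ^ 5 - X ^ 4 - X ^ 3 - X ^ 2) * two_eq_zero_poly⟩

lemma excl_one (n a : ℕ) (hn : 5 ≤ n) (han : a < n) (hf : IsPrimitivePoly (X ^ n + X ^ a + 1))
    (h : (n % 7 = 1 ∧ a % 7 = 3) ∨ (n % 7 = 2 ∧ a % 7 = 6) ∨ (n % 7 = 3 ∧ a % 7 = 1) ∨ (n % 7 = 4 ∧ a % 7 = 5) ∨ (n % 7 = 5 ∧ a % 7 = 4) ∨ (n % 7 = 6 ∧ a % 7 = 2)) : False := by
  refine excl (X ^ 3 + X + 1) deg_one dvd_one n a hn han hf ?_
  rcases h with ⟨h1, h2⟩ | ⟨h1, h2⟩ | ⟨h1, h2⟩ | ⟨h1, h2⟩ | ⟨h1, h2⟩ | ⟨h1, h2⟩ <;> rewrite [h1, h2]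
  · exact ⟨1, by linear_combination (0) * two_eq_zero_poly⟩
  · exact ⟨X ^ 3 + X + 1, by linear_combination (- X ^ 4 - X ^ 3 - X) * two_eq_zero_poly⟩
  · exact ⟨1, by linear_combination (0) * two_eq_zero_poly⟩
  · exact ⟨X ^ 2 + X + 1, by linear_combination (- X ^ 3 - X ^ 2 - X) * two_eq_zero_poly⟩
  · exact ⟨X ^ 2 + X + 1, by linear_combination (- X ^ 3 - X ^ 2 - X) * two_eq_zero_poly⟩
  · exact ⟨X ^ 3 + X + 1, by linear_combination (- X ^ 4 - X ^ 3 - X) * two_eq_zero_poly⟩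

lemma excl_two (n a : ℕ) (hn : 5 ≤ n) (han : a < n) (hf : IsPrimitivePoly (X ^ n + X ^ a + 1))
    (h : (n % 7 = 1 ∧ a % 7 = 5) ∨ (n % 7 = 2 ∧ a % 7 = 3) ∨ (n % 7 = 3 ∧ a % 7 = 2) ∨ (n % 7 = 4 ∧ a % 7 = 6) ∨ (n % 7 = 5 ∧ a % 7 = 1) ∨ (n % 7 = 6 ∧ a % 7 = 4)) : False := by
  refine excl (X ^ 3 + X ^ 2 + 1) deg_two dvd_two n a hn han hf ?_
  rcases h with ⟨h1, h2⟩ | ⟨h1, h2⟩ | ⟨h1, h2⟩ | ⟨h1, h2⟩ | ⟨h1, h2⟩ | ⟨h1, h2⟩ <;> rewrite [h1, h2]
  · exact ⟨X ^ 2 + X + 1, by linear_combination (- X ^ 4 - X ^ 3 - X ^ 2) * two_eq_zero_poly⟩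
  · exact ⟨1, by linear_combination (0) * two_eq_zero_poly⟩
  · exact ⟨1, by linear_combination (0) * two_eq_zero_poly⟩
  · exact ⟨X ^ 3 + X ^ 2 + 1, by linear_combination (- X ^ 5 - X ^ 3 - X ^ 2) * two_eq_zero_poly⟩
  · exact ⟨X ^ 2 + X + 1, by linear_combination (- X ^ 4 - X ^ 3 - X ^ 2) * two_eq_zero_poly⟩
  · exact ⟨X ^ 3 + X ^ 2 + 1, by linear_combination (- X ^ 5 - X ^ 3 - X ^ 2) * two_eq_zero_poly⟩

lemma mod_seven_cases (n a : ℕ) (c1 : n % 7 ≠ 0) (c2 : a % 7 ≠ 0) (c3 : n % 7 ≠ a % 7)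
    (c4 : ¬ (a + n) % 7 = 0) (c5 : ¬ (2 * a) % 7 = n % 7) (c6 : ¬ (2 * n) % 7 = a % 7) :
    ((n % 7 = 1 ∧ a % 7 = 3) ∨ (n % 7 = 2 ∧ a % 7 = 6) ∨ (n % 7 = 3 ∧ a % 7 = 1) ∨
      (n % 7 = 4 ∧ a % 7 = 5) ∨ (n % 7 = 5 ∧ a % 7 = 4) ∨ (n % 7 = 6 ∧ a % 7 = 2)) ∨
    ((n % 7 = 1 ∧ a % 7 = 5) ∨ (n % 7 = 2 ∧ a % 7 = 3) ∨ (n % 7 = 3 ∧ a % 7 = 2) ∨
      (n % 7 = 4 ∧ a % 7 = 6) ∨ (n % 7 = 5 ∧ a % 7 = 1) ∨ (n % 7 = 6 ∧ a % 7 = 4)) := by
  have ha7 : a % 7 = 1 ∨ a % 7 = 2 ∨ a % 7 = 3 ∨ a % 7 = 4 ∨ a % 7 = 5 ∨ a % 7 = 6 := by omega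
  have hn7 : n % 7 = 1 ∨ n % 7 = 2 ∨ n % 7 = 3 ∨ n % 7 = 4 ∨ n % 7 = 5 ∨ n % 7 = 6 := by omega
  rcases ha7 with h | h | h | h | h | h <;> rcases hn7 with h' | h' | h' | h' | h' | h' <;>
    simp only [h, h'] <;> first | (exfalso; omega) | simp

lemma case_seven (n a : ℕ) (hn : 5 ≤ n) (ha0 : 0 < a) (han : a < n)
    (hf : IsPrimitivePoly (X ^ n + X ^ a + 1)) (h3 : ¬ 3 ∣ n) (h7 : ¬ 7 ∣ n * a * (n - a)) :
    HasPrimitivePentanomial n := by
  have hcop := coprime_seven n h3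
  have c1 : n % 7 ≠ 0 := fun h => h7 (((Nat.dvd_of_mod_eq_zero h).mul_right _).mul_right _)
  have c2 : a % 7 ≠ 0 := fun h => h7 (((Nat.dvd_of_mod_eq_zero h).mul_left _).mul_right _)
  have c3 : n % 7 ≠ a % 7 := fun h =>
    h7 (((Nat.modEq_iff_dvd' han.le).1 h.symm).mul_left _)
  by_cases c4 : (a + n) % 7 = 0
  · exact seven_mid_one n a ((a + n) / 7) hcop hn ha0 han h3 hf (by omega)
  by_cases c5 : (2 * a) % 7 = n % 7
  · exact seven_mid_a n a ((5 * a + n) / 7) ((a + 3 * n) / 7) hcop hn ha0 han hf (by omega)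
      (by omega)
  by_cases c6 : (2 * n) % 7 = a % 7
  · exact seven_mid_n n a ((5 * n + a) / 7) ((n + 3 * a) / 7) hcop hn ha0 han h3 hf (by omega)
      (by omega)
  exfalso
  rcases mod_seven_cases n a c1 c2 c3 c4 c5 c6 with h | h
  · exact excl_one n a hn han hf h
  · exact excl_two n a hn han hf h

lemma mod_five (a n : ℕ) (c1 : ¬ a % 5 = 0) (c2 : ¬ n % 5 = 0) (c3 : ¬ n % 5 = a % 5)
    (c4 : ¬ (a + n) % 5 = 0) (c5 : ¬ (2 * a) % 5 = n % 5) : (2 * n) % 5 = a % 5 := by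
  have ha5 : a % 5 = 1 ∨ a % 5 = 2 ∨ a % 5 = 3 ∨ a % 5 = 4 := by omega
  have hn5 : n % 5 = 1 ∨ n % 5 = 2 ∨ n % 5 = 3 ∨ n % 5 = 4 := by omega
  rcases ha5 with h | h | h | h <;> rcases hn5 with h' | h' | h' | h' <;> omega

/-- `x ^ 5 + x + 1` and `x ^ 5 + x ^ 4 + 1` are not primitive -/
lemma not_five (a : ℕ) (hf : IsPrimitivePoly (X ^ 5 + X ^ a + 1)) (h : a = 1 ∨ a = 4) : False := by
  have h2 := two_eq_zero_poly
  rcases h with rfl | rfl
  · refine no_small 5 1 (by norm_num) hf 21 (by norm_num) (by norm_num) ?_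
    refine ⟨X ^ 16 + X ^ 12 + X ^ 11 + X ^ 8 + X ^ 6 + X ^ 4 + X ^ 3 + X ^ 2 + X + 1, ?_⟩
    linear_combination (-(X ^ 17 + X ^ 16 + X ^ 13 + X ^ 12 + X ^ 11 + X ^ 9 + X ^ 8 + X ^ 7
      + X ^ 6 + X ^ 5 + X ^ 4 + X ^ 3 + X ^ 2 + X)) * h2
  · refine no_small 5 4 (by norm_num) hf 21 (by norm_num) (by norm_num) ?_
    refine ⟨X ^ 16 + X ^ 15 + X ^ 14 + X ^ 13 + X ^ 12 + X ^ 10 + X ^ 8 + X ^ 5 + X ^ 4 + 1, ?_⟩
    linear_combination (-(X ^ 20 + X ^ 19 + X ^ 18 + X ^ 17 + X ^ 16 + X ^ 15 + X ^ 14 + X ^ 13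
      + X ^ 12 + X ^ 10 + X ^ 9 + X ^ 8 + X ^ 5 + X ^ 4)) * h2

lemma case_five (n a : ℕ) (hn : 5 ≤ n) (ha0 : 0 < a) (han : a < n)
    (hf : IsPrimitivePoly (X ^ n + X ^ a + 1)) (h4 : ¬ 4 ∣ n) : HasPrimitivePentanomial n := by
  have hcop := coprime_five n (by omega) h4
  have hcop5 : Nat.Coprime (2 ^ n - 1) 5 := hcop
  have hg := gcd_eq_one n a ha0 han hf
  by_cases c1 : a % 5 = 0
  · exact case_a 2 n a (a / 5) hcop (by norm_num) ha0 han hf (by norm_num; omega)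
  by_cases c2 : n % 5 = 0
  · have hdvd : n / 5 ∣ n := Nat.div_dvd_of_dvd (Nat.dvd_of_mod_eq_zero c2)
    have key : ∀ c, n = 5 * c → (a = c ∨ a = 4 * c) → False := by
      intro c hc hac
      have hca : c ∣ a := by
        rcases hac with h | h
        · exact ⟨1, by omega⟩
        · exact ⟨4, by omega⟩
      have hcn : c ∣ n := ⟨5, by omega⟩
      have hc1 : c = 1 := Nat.eq_one_of_dvd_one (hg ▸ Nat.dvd_gcd hcn hca)
      subst hc1
      have hn5 : n = 5 := by omega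
      subst hn5
      exact not_five a hf (by omega)
    refine case_n 2 n a (n / 5) hcop (by norm_num) ha0 han hf (by norm_num; omega) ?_ ?_
    · intro h; exact key (n / 5) (by omega) (Or.inl h)
    · intro h; exact key (n / 5) (by omega) (Or.inr (by omega))
  by_cases c3 : n % 5 = a % 5
  · exact case_d 2 n a ((n - a) / 5) hcop (by norm_num) ha0 han hf (by norm_num; omega)
  by_cases c4 : (a + n) % 5 = 0
  · exact five_mid_one n a ((a + n) / 5) hcop5 hn ha0 han hf (by omega)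
  by_cases c5 : (2 * a) % 5 = n % 5
  · exact five_mid_a n a ((3 * a + n) / 5) ((a + 2 * n) / 5) hcop5 hn ha0 han hf (by omega)
      (by omega)
  have c6 := mod_five a n c1 c2 c3 c4 c5
  exact five_mid_n n a ((a + 3 * n) / 5) ((2 * a + n) / 5) hcop5 hn ha0 han hf (by omega)
    (by omega)

/-- **Theorem.** Let `n ≥ 5` and let the trinomial `x ^ n + x ^ a + 1` be primitive over `GF(2)`.
Some pentanomial of degree `n` is primitive over `GF(2)` if one of the following holds: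
`4 ∤ n`; or for some `k ≥ 1` divisible by every power of `2` that divides `n`, the number
`2 ^ k + 1` divides `n`, `a` or `n - a`; or `3 ∤ n` and `7 ∤ n a (n - a)`. -/
theorem result (n a : ℕ) (hn : 5 ≤ n) (ha0 : 0 < a) (han : a < n)
    (hf : IsPrimitivePoly (X ^ n + X ^ a + 1))
    (h : ¬ 4 ∣ n ∨
      (∃ k : ℕ, 1 ≤ k ∧ (∀ j : ℕ, 2 ^ j ∣ n → 2 ^ j ∣ k) ∧
        (2 ^ k + 1 ∣ n ∨ 2 ^ k + 1 ∣ a ∨ 2 ^ k + 1 ∣ n - a)) ∨
      (¬ 3 ∣ n ∧ ¬ 7 ∣ n * a * (n - a))) :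
    ∃ a₁ a₂ a₃ : ℕ, 0 < a₁ ∧ a₁ < a₂ ∧ a₂ < a₃ ∧ a₃ < n ∧
      IsPrimitivePoly (X ^ n + X ^ a₃ + X ^ a₂ + X ^ a₁ + 1) := by
  show HasPrimitivePentanomial n
  by_cases h4 : 4 ∣ n
  swap
  · exact case_five n a hn ha0 han hf h4
  rcases h with h | ⟨k, hk, hv, hd⟩ | ⟨h3, h7⟩
  · exact absurd h4 h
  · have hcop := coprime_q n k (by omega) hk hv
    rcases hd with ⟨c, hc⟩ | ⟨b, hb⟩ | ⟨c, hc⟩
    · have hg := gcd_eq_one n a ha0 han hf
      have key : (a = c ∨ a = 2 ^ k * c) → False := by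
        intro hac
        have hca : c ∣ a := by
          rcases hac with h | h
          · exact ⟨1, by omega⟩
          · exact ⟨2 ^ k, by rw [h]; ring⟩
        have hcn : c ∣ n := ⟨2 ^ k + 1, by rw [hc]; ring⟩
        have hc1 : c = 1 := Nat.eq_one_of_dvd_one (hg ▸ Nat.dvd_gcd hcn hca)
        subst hc1
        have e8 : 2 ∣ 2 ^ k := dvd_pow_self 2 (by omega)
        omega
      exact case_n k n a c hcop hk ha0 han hf hc (fun h => key (Or.inl h))
        (fun h => key (Or.inr h))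
    · exact case_a k n a b hcop hk ha0 han hf hb
    · exact case_d k n a c hcop hk ha0 han hf (by omega)
  · exact case_seven n a hn ha0 han hf h3 h7

end Pool.Agent.Results.MP_6cc886_nt.TrinomialDegrees
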